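import Pool.Agent.helper34.AC.Spec4

/-!
# Project ac, module DLB
-/

set_option autoImplicit false

namespace Pool.Agent.helper34.AC

theorem DLB_sum_cs {V : Type} [DecidableEq V] (Y : Finset V) (P : Finset (Finset V)) :
    ∑ y ∈ Y, cs P y = ∑ B ∈ P, (Y.filter (fun y => y ∈ B)).card * B.card := by
  unfold cs
  have h1 : ∀ y ∈ Y, ∑ B ∈ P.filter (fun B => y ∈ B), B.card =
      ∑ B ∈ P, if y ∈ B then B.card else 0 := fun y _ => Finset.sum_filter _ _
  rw [Finset.sum_congr rfl h1, Finset.sum_comm]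
  refine Finset.sum_congr rfl fun B _ => ?_
  rw [← Finset.sum_filter, Finset.sum_const, smul_eq_mul]

theorem DLB_pairs {V : Type} [DecidableEq V] (Y B : Finset V) (c : ℕ) :
    ∑ y ∈ Y, ∑ z ∈ Y.erase y, (if y ∈ B ∧ z ∈ B then c else 0) =
      (Y.filter (fun y => y ∈ B)).card * ((Y.filter (fun y => y ∈ B)).card - 1) * c := by
  have h1 : ∀ y ∈ Y, ∑ z ∈ Y.erase y, (if y ∈ B ∧ z ∈ B then c else 0) =
      if y ∈ B then ((Y.filter (fun y => y ∈ B)).card - 1) * c else 0 := by
    intro y hy
    by_cases hyB : y ∈ B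
    · simp only [hyB, true_and, if_true]
      rw [← Finset.sum_filter, Finset.sum_const, smul_eq_mul]
      congr 1
      rw [Finset.filter_erase, Finset.card_erase_of_mem]
      exact Finset.mem_filter.2 ⟨hy, hyB⟩
    · simp [hyB]
  rw [Finset.sum_congr rfl h1, ← Finset.sum_filter, Finset.sum_const, smul_eq_mul, mul_assoc]

theorem DLB_cs_eq {V : Type} [DecidableEq V] (P : Finset (Finset V)) (y : V) :
    cs P y = ∑ B ∈ P, if y ∈ B then B.card else 0 := by
  unfold cs
  exact Finset.sum_filter _ _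

theorem DLB_DY_eq {V : Type} [DecidableEq V] (Y : Finset V) (P : Finset (Finset V)) :
    DY Y P = ∑ B ∈ P, if ¬ Disjoint B Y then B.card else 0 := by
  unfold DY
  exact Finset.sum_filter _ _

theorem DLB_pos {V : Type} [DecidableEq V] {Y B : Finset V} (h : ¬ Disjoint B Y) :
    1 ≤ (Y.filter (fun y => y ∈ B)).card := by
  rw [Finset.not_disjoint_iff] at h
  obtain ⟨a, ha, ha2⟩ := h
  exact Finset.card_pos.2 ⟨a, Finset.mem_filter.2 ⟨ha2, ha⟩⟩

theorem DLB_zero {V : Type} [DecidableEq V] {Y B : Finset V} (h : Disjoint B Y) :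
    (Y.filter (fun y => y ∈ B)).card = 0 := by
  rw [Finset.card_eq_zero, Finset.filter_eq_empty_iff]
  intro y hy hyB
  exact (Finset.disjoint_left.1 h) hyB hy

theorem DLB : DLB_stmt := by
  intro V _ G U Y P hP hY
  have hcol : IsCol G U P := by
    unfold col at hP
    simp only [Finset.mem_filter] at hP
    exact hP.2
  refine ⟨?_, ?_, ?_⟩
  · rw [DLB_sum_cs, DLB_DY_eq]
    refine Finset.sum_le_sum fun B _ => ?_
    split_ifs with h
    · exact Nat.zero_le _
    · exact Nat.le_mul_of_pos_left _ (DLB_pos h)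
  · unfold DY
    rw [← Finset.card_biUnion]
    · refine Finset.card_le_card ?_
      intro x hx
      rw [Finset.mem_biUnion] at hx
      obtain ⟨B, hB, hxB⟩ := hx
      exact (hcol.1 B (Finset.mem_filter.1 hB).1).2.1 hxB
    · intro B hB B' hB' hne
      have hB := (Finset.mem_filter.1 hB).1
      have hB' := (Finset.mem_filter.1 hB').1
      refine Finset.disjoint_left.2 ?_
      intro x hx hx'
      obtain ⟨S, -, huniq⟩ := hcol.2 x ((hcol.1 B hB).2.1 hx)
      exact hne ((huniq B ⟨hB, hx⟩).trans (huniq B' ⟨hB', hx'⟩).symm)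
  · have h2 : ∑ B ∈ P, (Y.filter (fun y => y ∈ B)).card * ((Y.filter (fun y => y ∈ B)).card - 1) * B.card
        ≤ ∑ y ∈ Y, ∑ z ∈ Y.erase y, (if ∃ B ∈ P, y ∈ B ∧ z ∈ B then cs P y else 0) := by
      have h3 : ∀ B ∈ P, (Y.filter (fun y => y ∈ B)).card * ((Y.filter (fun y => y ∈ B)).card - 1) * B.card
          = ∑ y ∈ Y, ∑ z ∈ Y.erase y, (if y ∈ B ∧ z ∈ B then B.card else 0) :=
        fun B _ => (DLB_pairs Y B B.card).symm
      rw [Finset.sum_congr rfl h3, Finset.sum_comm]
      refine Finset.sum_le_sum fun y _ => ?_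
      rw [Finset.sum_comm]
      refine Finset.sum_le_sum fun z _ => ?_
      split_ifs with h
      · rw [DLB_cs_eq]
        refine Finset.sum_le_sum fun B _ => ?_
        split_ifs with h4 h5 h6
        · exact le_rfl
        · exact absurd h4.1 h5
        · exact Nat.zero_le _
        · exact le_rfl
      · rw [Finset.sum_eq_zero]
        intro B hB
        rw [if_neg]
        intro h4
        exact h ⟨B, hB, h4⟩
    refine le_trans ?_ (Nat.add_le_add_left h2 _)
    rw [DLB_sum_cs, DLB_DY_eq, ← Finset.sum_add_distrib]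
    refine Finset.sum_le_sum fun B _ => ?_
    split_ifs with h
    · rw [DLB_zero h]
      simp
    · have h1 := DLB_pos h
      obtain ⟨k, hk⟩ := Nat.exists_eq_add_of_le h1
      rw [hk, Nat.add_sub_cancel_left]
      nlinarith [Nat.zero_le (k * k * B.card), Nat.zero_le (k * B.card)]

end Pool.Agent.helper34.AC
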